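import Pool.Agent.Q205.HT.Main

/-!
A recursive colouring of the positive integers with 8 colours such that no infinite set of positive
integers, all of whose sums of at most three distinct elements get the same colour, is `Π⁰₃`, nor
even `Σ⁰₄`.
-/

namespace Pool.Agent.Results.MP_c0e71b_lc.NoPi03Solution

/-- `X` is a `Π⁰₃` set of natural numbers. -/
def IsPi03 (X : Set ℕ) : Prop :=
  ∃ R : ℕ → ℕ → ℕ → ℕ → Bool,
    Computable (fun x : ℕ × ℕ × ℕ × ℕ => R x.1 x.2.1 x.2.2.1 x.2.2.2) ∧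
      ∀ n, n ∈ X ↔ ∀ a, ∃ b, ∀ t, R n a b t = true

/-- `X` is a `Σ⁰₄` set of natural numbers. -/
def IsSigma04 (X : Set ℕ) : Prop :=
  ∃ R : ℕ → ℕ → ℕ → ℕ → ℕ → Bool,
    Computable (fun x : ℕ × ℕ × ℕ × ℕ × ℕ => R x.1 x.2.1 x.2.2.1 x.2.2.2.1 x.2.2.2.2) ∧
      ∀ n, n ∈ X ↔ ∃ a, ∀ b, ∃ t, ∀ u, R n a b t u = true

/-- `X` is a solution to `c` for `HT^{≤ 3}`: `c` is constant on the sums of one, two or three
distinct elements of `X`. -/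
def Solution3 {k : ℕ} (c : ℕ → Fin k) (X : Set ℕ) : Prop :=
  ∃ i, ∀ F : Finset ℕ, (F : Set ℕ) ⊆ X → F.Nonempty → F.card ≤ 3 → c (∑ n ∈ F, n) = i

theorem IsPi03.sigma04 {X : Set ℕ} (h : IsPi03 X) : IsSigma04 X := by
  obtain ⟨R, hR, hX⟩ := h
  refine ⟨fun n _ b t u => R n b t u, ?_, fun n => ?_⟩
  · exact hR.comp (f := fun x : ℕ × ℕ × ℕ × ℕ => R x.1 x.2.1 x.2.2.1 x.2.2.2)
      (g := fun x : ℕ × ℕ × ℕ × ℕ × ℕ => (x.1, x.2.2.1, x.2.2.2.1, x.2.2.2.2)) (by fun_prop)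
  · rw [hX n]
    exact ⟨fun h => ⟨0, h⟩, fun ⟨_, h⟩ => h⟩

theorem result :
    ∃ c : ℕ → Fin 8, Computable c ∧
      ∀ X : Set ℕ, X.Infinite → 0 ∉ X → Solution3 c X → ¬ IsPi03 X ∧ ¬ IsSigma04 X := by
  refine ⟨Pool.Agent.Q205.HT.c3, Pool.Agent.Q205.HT.c_c3, fun X hinf h0 hc => ?_⟩
  have key : ¬ IsSigma04 X := by
    rintro ⟨R, hR, hX⟩
    exact Pool.Agent.Q205.HT.no_sigma4 hinf h0 hc hR hX
  exact ⟨fun h => key h.sigma04, key⟩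

end Pool.Agent.Results.MP_c0e71b_lc.NoPi03Solution
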